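import Pool.Agent.K3h75.NW.StmN

/-! NW project (brick E1W, after `K3h97/ND/E1.lean`): the singular members of a pencil of coverings
are zeros of a characteristic polynomial. -/

set_option autoImplicit false
set_option linter.all false

namespace Pool.Agent.K3h79.NW

open MvPolynomial Pool.Agent.R187.WC Pool.Agent.K3h75.ND Pool.Agent.K3h75.NW

/-- the value of a monomial -/
noncomputable def xp {σ k : Type} [CommRing k] (x : σ → k) (s : σ →₀ ℕ) : k :=
  s.prod fun i a => x i ^ a

theorem xp_add {σ k : Type} [CommRing k] (x : σ → k) (s t : σ →₀ ℕ) :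
    xp x (s + t) = xp x s * xp x t := by
  classical
  rw [xp, xp, xp]
  apply Finsupp.prod_add_index'
  · intro i; exact pow_zero _
  · intro i a b; exact pow_add _ _ _

theorem xp_single {σ k : Type} [CommRing k] (x : σ → k) (i : σ) (a : ℕ) :
    xp x (Finsupp.single i a) = x i ^ a := by
  rw [xp]
  exact Finsupp.prod_single_index (pow_zero _)

theorem wt_single {ι : Type} (e : ℕ) (j : Option ι) (a : ℕ) :
    Finsupp.weight (wt e) (Finsupp.single j a) = a * wt e j := by
  rw [Finsupp.weight_apply, Finsupp.sum_single_index (by simp), smul_eq_mul]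

/-- the basis monomials -/
abbrev Bas (N e m W : ℕ) : Type :=
  {v : Option (Fin (N + 1)) →₀ ℕ // Finsupp.weight (wt e) v = W ∧ v none ≤ m - 2}

instance (N e m W : ℕ) : Finite (Bas N e m W) := by
  classical
  refine Finite.of_injective (fun (s : Bas N e m W) (o : Option (Fin (N + 1))) =>
    (⟨s.1 o, by
      have h1 := s.2.1
      rw [weight_eq] at h1
      rcases o with _ | j
      · have h2 := s.2.2
        omega
      · have h2 : s.1 (some j) ≤ ∑ j, s.1 (some j) :=
          Finset.single_le_sum (f := fun j => s.1 (some j)) (fun _ _ => Nat.zero_le _)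
            (Finset.mem_univ j)
        omega⟩ : Fin (W + m + 1))) ?_
  intro a b h
  apply Subtype.ext
  ext o
  have h1 := congrFun h o
  exact congrArg Fin.val h1

noncomputable instance (N e m W : ℕ) : Fintype (Bas N e m W) := Fintype.ofFinite _

/-- the exponent -/
noncomputable def cx {N e m : ℕ} (s : CoefW N e m) : Option (Fin (N + 1)) →₀ ℕ := s.1

theorem cx_weight {N e m : ℕ} (s : CoefW N e m) : Finsupp.weight (wt e) (cx s) = m * e := s.2.1

theorem cx_none {N e m : ℕ} (s : CoefW N e m) : cx s none < m := s.2.2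

theorem cx_inj {N e m : ℕ} {s t : CoefW N e m} (h : cx s = cx t) : s = t := Subtype.ext h

/-- the monomial with a given exponent -/
noncomputable def mkC {N e m : ℕ} (s : Option (Fin (N + 1)) →₀ ℕ)
    (h : Finsupp.weight (wt e) s = m * e) (h' : s none < m) : CoefW N e m := ⟨s, h, h'⟩

theorem cx_mk {N e m : ℕ} (s : Option (Fin (N + 1)) →₀ ℕ)
    (h : Finsupp.weight (wt e) s = m * e) (h' : s none < m) : cx (mkC s h h') = s := rfl

theorem isPow_iff {N e m : ℕ} (s : CoefW N e m) :
    IsPowW s ↔ ∃ i, cx s = Finsupp.single (some i) (m * e) := Iff.rfl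

theorem eval_pd {N e m : ℕ} {k : Type} [CommRing k] (a : CoefW N e m → k)
    (x : Option (Fin (N + 1)) → k) (j : Option (Fin (N + 1))) :
    eval x (pderiv j (wform a)) = (if j = none then (m : k) * x none ^ (m - 1) else 0) +
      ∑ s : CoefW N e m, a s * (cx s j : k) * xp x (cx s - Finsupp.single j 1) := by
  rw [wform, map_add, map_add, map_sum, map_sum]
  congr 1
  · rw [Derivation.leibniz_pow]
    split_ifs with h
    · subst h
      rw [pderiv_X_self]
      simp
    · rw [pderiv_X_of_ne (Ne.symm h)]
      simp
  · apply Finset.sum_congr rfl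
    intro s _
    rw [pderiv_monomial, eval_monomial]
    rfl

open Classical in
theorem pcoef_add {N e m : ℕ} {k : Type} [CommRing k] (b : IdxW N e m → k) (c : k)
    (s : CoefW N e m) : pcoefW b c s = pcoefW b 0 s + (if IsPowW s then c else 0) := by
  rw [pcoefW, pcoefW]
  by_cases h : IsPowW s
  · simp only [h, if_true]
    ring
  · simp only [h, if_false]
    ring

theorem pcoef_map {N e m : ℕ} {R S : Type} [CommRing R] [CommRing S] (f : R →+* S)
    (b : IdxW N e m → R) (s : CoefW N e m) :
    f (pcoefW b 0 s) = pcoefW (fun j => f (b j)) 0 s := by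
  classical
  rw [pcoefW, pcoefW, map_add]
  congr 1
  · split_ifs
    · exact map_zero f
    · rfl
  · split_ifs
    · exact map_zero f
    · exact map_zero f

/-- the critical equation for `w` -/
theorem crit_w {N e m : ℕ} {k : Type} [CommRing k] (b : IdxW N e m → k) (c : k)
    (x : Option (Fin (N + 1)) → k) (h : eval x (pderiv none (pformW b c)) = 0) :
    (m : k) * x none ^ (m - 1) =
      -∑ s : CoefW N e m, pcoefW b 0 s * (cx s none : k) * xp x (cx s - Finsupp.single none 1) := by
  classical
  rw [pformW, eval_pd, if_pos rfl] at h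
  have h1 : ∀ s : CoefW N e m, pcoefW b c s * (cx s none : k) * xp x (cx s - Finsupp.single none 1) =
      pcoefW b 0 s * (cx s none : k) * xp x (cx s - Finsupp.single none 1) := by
    intro s
    rw [pcoef_add b c s]
    by_cases h2 : IsPowW s
    · obtain ⟨i, hi⟩ := (isPow_iff s).1 h2
      have h3 : cx s none = 0 := by
        rw [hi]
        exact Finsupp.single_eq_of_ne (by simp)
      rw [h3]
      simp
    · rw [if_neg h2, add_zero]
  rw [Finset.sum_congr rfl (fun s _ => h1 s)] at h
  exact eq_neg_of_add_eq_zero_left h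

/-- the critical equation for `x_i` -/
theorem crit_x {N e m : ℕ} (hm : 2 ≤ m) {k : Type} [CommRing k] (b : IdxW N e m → k) (c : k)
    (x : Option (Fin (N + 1)) → k) (i : Fin (N + 1))
    (h : eval x (pderiv (some i) (pformW b c)) = 0) :
    ((m * e : ℕ) : k) * c * x (some i) ^ (m * e - 1) =
      -∑ s : CoefW N e m, pcoefW b 0 s * (cx s (some i) : k) *
        xp x (cx s - Finsupp.single (some i) 1) := by
  classical
  rw [pformW, eval_pd, if_neg (by simp), zero_add] at h
  have h1 : ∀ s : CoefW N e m, pcoefW b c s * (cx s (some i) : k) *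
      xp x (cx s - Finsupp.single (some i) 1) =
      pcoefW b 0 s * (cx s (some i) : k) * xp x (cx s - Finsupp.single (some i) 1) +
      (if IsPowW s then c else 0) * (cx s (some i) : k) *
        xp x (cx s - Finsupp.single (some i) 1) := by
    intro s
    rw [pcoef_add b c s]
    ring
  rw [Finset.sum_congr rfl (fun s _ => h1 s), Finset.sum_add_distrib] at h
  have hw : Finsupp.weight (wt e) (Finsupp.single (some i) (m * e) :
      Option (Fin (N + 1)) →₀ ℕ) = m * e := by
    rw [wt_single, wt_some, mul_one]
  have hn : (Finsupp.single (some i) (m * e) : Option (Fin (N + 1)) →₀ ℕ) none < m := by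
    rw [Finsupp.single_eq_of_ne (by simp)]
    omega
  have h2 : ∑ s : CoefW N e m, (if IsPowW s then c else 0) * (cx s (some i) : k) *
        xp x (cx s - Finsupp.single (some i) 1) =
      ((m * e : ℕ) : k) * c * x (some i) ^ (m * e - 1) := by
    rw [Finset.sum_eq_single (mkC (Finsupp.single (some i) (m * e)) hw hn)]
    · have h3 : IsPowW (mkC (Finsupp.single (some i) (m * e)) hw hn) := ⟨i, rfl⟩
      rw [if_pos h3]
      have h4 : (Finsupp.single (some i) (m * e) : Option (Fin (N + 1)) →₀ ℕ) -
          Finsupp.single (some i) 1 = Finsupp.single (some i) (m * e - 1) := by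
        rw [Finsupp.single_tsub]
      rw [cx_mk, h4, xp_single, Finsupp.single_eq_same]
      ring
    · intro s _ hs
      by_cases h3 : IsPowW s
      · obtain ⟨j, hj⟩ := (isPow_iff s).1 h3
        have h4 : j ≠ i := by
          rintro rfl
          exact hs (cx_inj hj)
        have h5 : cx s (some i) = 0 := by
          rw [hj]
          exact Finsupp.single_eq_of_ne (by simpa using Ne.symm h4)
        rw [h5]
        simp
      · rw [if_neg h3]
        simp
    · intro h
      exact absurd (Finset.mem_univ _) h
  rw [h2] at h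
  linear_combination h

theorem red_bas {N e m W : ℕ} (t : ℕ) (u : Option (Fin (N + 1)) →₀ ℕ)
    (hu : Finsupp.weight (wt e) u = W) (h : u none ≤ m - 2) :
    ∃ ρ : Bas N e m W → MvPolynomial (IdxW N e m) ℤ, ∀ (k : Type) [Field k]
      (b : IdxW N e m → k) (c : k) (x : Option (Fin (N + 1)) → k),
      (∀ j, eval x (pderiv j (pformW b c)) = 0) →
      (m : k) ^ t * xp x u = ∑ v, eval₂Hom (Int.castRingHom k) b (ρ v) * xp x v.1 := by
  classical
  refine ⟨fun v => if v = ⟨u, hu, h⟩ then (m : MvPolynomial (IdxW N e m) ℤ) ^ t else 0, ?_⟩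
  intro k _ b c x _
  rw [Finset.sum_eq_single (⟨u, hu, h⟩ : Bas N e m W)]
  · beta_reduce
    rw [if_pos rfl, map_pow, map_natCast]
  · intro v _ hv
    beta_reduce
    rw [if_neg hv, map_zero, zero_mul]
  · intro h
    exact absurd (Finset.mem_univ _) h

theorem red {N e m W : ℕ} (hm : 2 ≤ m) : ∀ (t : ℕ) (u : Option (Fin (N + 1)) →₀ ℕ),
    Finsupp.weight (wt e) u = W → u none ≤ t →
    ∃ ρ : Bas N e m W → MvPolynomial (IdxW N e m) ℤ, ∀ (k : Type) [Field k]
      (b : IdxW N e m → k) (c : k) (x : Option (Fin (N + 1)) → k),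
      (∀ j, eval x (pderiv j (pformW b c)) = 0) →
      (m : k) ^ t * xp x u = ∑ v, eval₂Hom (Int.castRingHom k) b (ρ v) * xp x v.1 := by
  classical
  intro t
  induction t with
  | zero =>
    intro u hu h0
    exact red_bas 0 u hu (by omega)
  | succ t ih =>
    intro u hu h0
    by_cases h1 : u none ≤ m - 2
    · exact red_bas (t + 1) u hu h1
    · have hle : Finsupp.single none (m - 1) ≤ u := by
        rw [Finsupp.single_le_iff]
        omega
      have hu' : (u - Finsupp.single none (m - 1)) + Finsupp.single none (m - 1) = u :=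
        tsub_add_cancel_of_le hle
      have a2 : Finsupp.weight (wt e) (u - Finsupp.single none (m - 1)) + (m - 1) * e = W := by
        have h2 := congrArg (Finsupp.weight (wt e)) hu'
        rw [map_add, wt_single, wt_none, hu] at h2
        exact h2
      have a3 : (m - 1) * e + e = m * e := by
        have h2 : m = (m - 1) + 1 := by omega
        conv_rhs => rw [h2]
        ring
      have hex : ∀ s : CoefW N e m, ∃ ρ : Bas N e m W → MvPolynomial (IdxW N e m) ℤ,
          1 ≤ cx s none → ∀ (k : Type) [Field k]
            (b : IdxW N e m → k) (c : k) (x : Option (Fin (N + 1)) → k),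
            (∀ j, eval x (pderiv j (pformW b c)) = 0) →
            (m : k) ^ t * xp x ((cx s - Finsupp.single none 1) + (u - Finsupp.single none (m - 1))) =
              ∑ v, eval₂Hom (Int.castRingHom k) b (ρ v) * xp x v.1 := by
        intro s
        by_cases hs : 1 ≤ cx s none
        · have hles : Finsupp.single none 1 ≤ cx s := by
            rw [Finsupp.single_le_iff]
            exact hs
          have a1 : Finsupp.weight (wt e) (cx s - Finsupp.single none 1) + e = m * e := by
            have h2 := congrArg (Finsupp.weight (wt e)) (tsub_add_cancel_of_le hles)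
            rw [map_add, wt_single, wt_none, cx_weight s, one_mul] at h2
            exact h2
          obtain ⟨ρ, hρ⟩ := ih ((cx s - Finsupp.single none 1) + (u - Finsupp.single none (m - 1)))
            (by rw [map_add]; omega) (by
              have h2 := cx_none s
              rw [Finsupp.add_apply, Finsupp.tsub_apply, Finsupp.tsub_apply,
                Finsupp.single_eq_same, Finsupp.single_eq_same]
              omega)
          exact ⟨ρ, fun _ => hρ⟩
        · exact ⟨fun _ => 0, fun h => absurd h hs⟩
      choose ρ hρ using hex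
      refine ⟨fun v => -∑ s : CoefW N e m, pcoefW X 0 s *
        (cx s none : MvPolynomial (IdxW N e m) ℤ) * ρ s v, ?_⟩
      intro k _ b c x hx
      have hC : ∀ s : CoefW N e m, eval₂Hom (Int.castRingHom k) b
          (pcoefW X 0 s : MvPolynomial (IdxW N e m) ℤ) = pcoefW b 0 s := by
        intro s
        rw [pcoef_map]
        congr 1
        funext j
        exact eval₂Hom_X' _ _ _
      have e1 : (m : k) ^ (t + 1) * xp x u = (m : k) ^ t * xp x (u - Finsupp.single none (m - 1)) *
          ((m : k) * x none ^ (m - 1)) := by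
        conv_lhs => rw [← hu', xp_add, xp_single]
        ring
      rw [e1, crit_w b c x (hx none), mul_neg, Finset.mul_sum]
      simp only [map_neg, map_sum, map_mul, map_natCast, hC, neg_mul, Finset.sum_neg_distrib]
      congr 1
      simp only [Finset.sum_mul]
      rw [Finset.sum_comm]
      refine Finset.sum_congr rfl fun s _ => ?_
      by_cases hs : 1 ≤ cx s none
      · have h2 := hρ s hs k b c x hx
        rw [xp_add] at h2
        have h3 : ∑ v : Bas N e m W, pcoefW b 0 s * (cx s none : k) *
            eval₂Hom (Int.castRingHom k) b (ρ s v) * xp x v.1 =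
            pcoefW b 0 s * (cx s none : k) *
              ∑ v : Bas N e m W, eval₂Hom (Int.castRingHom k) b (ρ s v) * xp x v.1 := by
          rw [Finset.mul_sum]
          exact Finset.sum_congr rfl fun v _ => by ring
        rw [h3, ← h2]
        ring
      · have h2 : cx s none = 0 := by omega
        rw [h2]
        simp

theorem big {N e m W : ℕ} (he : 1 ≤ e) (hm : 2 ≤ m)
    (hW : W = (m - 2) * e + (N + 1) * (m * e - 2) + 1) (v : Bas N e m W) :
    ∃ i, m * e - 1 ≤ v.1 (some i) := by
  by_contra hcon
  push Not at hcon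
  have h1 := v.2.1
  rw [weight_eq] at h1
  have h2 : ∑ i, v.1 (some i) ≤ ∑ i : Fin (N + 1), (m * e - 2) :=
    Finset.sum_le_sum (fun i _ => by have := hcon i; omega)
  rw [Finset.sum_const, Finset.card_univ, Fintype.card_fin, smul_eq_mul] at h2
  have h3 := Nat.mul_le_mul_right e v.2.2
  omega

theorem exists_mat {N e m W : ℕ} (he : 1 ≤ e) (hm : 2 ≤ m)
    (hW : W = (m - 2) * e + (N + 1) * (m * e - 2) + 1) :
    ∃ A : Matrix (Bas N e m W) (Bas N e m W) (MvPolynomial (IdxW N e m) ℤ),
    ∀ (k : Type) [Field k] (b : IdxW N e m → k) (c : k) (x : Option (Fin (N + 1)) → k),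
      (∀ j, eval x (pderiv j (pformW b c)) = 0) → ∀ v,
      ((m ^ (2 * m) * (m * e) : ℕ) : k) * c * xp x v.1 =
        ∑ u, eval₂Hom (Int.castRingHom k) b (A v u) * xp x u.1 := by
  classical
  choose ix hix using fun v => big (N := N) he hm hW v
  have hd : 2 ≤ m * e := by nlinarith
  have hex : ∀ (v : Bas N e m W) (s : CoefW N e m),
      ∃ ρ : Bas N e m W → MvPolynomial (IdxW N e m) ℤ,
        1 ≤ cx s (some (ix v)) → ∀ (k : Type) [Field k]
          (b : IdxW N e m → k) (c : k) (x : Option (Fin (N + 1)) → k),
          (∀ j, eval x (pderiv j (pformW b c)) = 0) →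
          (m : k) ^ (2 * m) * xp x ((cx s - Finsupp.single (some (ix v)) 1) +
              (v.1 - Finsupp.single (some (ix v)) (m * e - 1))) =
            ∑ v, eval₂Hom (Int.castRingHom k) b (ρ v) * xp x v.1 := by
    intro v s
    by_cases hs : 1 ≤ cx s (some (ix v))
    · have hles : Finsupp.single (some (ix v)) 1 ≤ cx s := by
        rw [Finsupp.single_le_iff]
        exact hs
      have hlev : Finsupp.single (some (ix v)) (m * e - 1) ≤ v.1 := by
        rw [Finsupp.single_le_iff]
        exact hix v
      have a1 : Finsupp.weight (wt e) (cx s - Finsupp.single (some (ix v)) 1) + 1 = m * e := by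
        have h2 := congrArg (Finsupp.weight (wt e)) (tsub_add_cancel_of_le hles)
        rw [map_add, wt_single, wt_some, cx_weight s, one_mul] at h2
        exact h2
      have a2 : Finsupp.weight (wt e) (v.1 - Finsupp.single (some (ix v)) (m * e - 1)) +
          (m * e - 1) = W := by
        have h2 := congrArg (Finsupp.weight (wt e)) (tsub_add_cancel_of_le hlev)
        rw [map_add, wt_single, wt_some, v.2.1, mul_one] at h2
        exact h2
      obtain ⟨ρ, hρ⟩ := red (N := N) (e := e) (W := W) hm (2 * m) ((cx s - Finsupp.single (some (ix v)) 1) +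
        (v.1 - Finsupp.single (some (ix v)) (m * e - 1))) (by rw [map_add]; omega) (by
          have h2 := cx_none s
          have h3 := v.2.2
          rw [Finsupp.add_apply, Finsupp.tsub_apply, Finsupp.tsub_apply,
            Finsupp.single_eq_of_ne (by simp), Finsupp.single_eq_of_ne (by simp)]
          omega)
      exact ⟨ρ, fun _ => hρ⟩
    · exact ⟨fun _ => 0, fun h => absurd h hs⟩
  choose ρ hρ using hex
  refine ⟨fun v u => -∑ s : CoefW N e m, pcoefW X 0 s *
    (cx s (some (ix v)) : MvPolynomial (IdxW N e m) ℤ) * ρ v s u, ?_⟩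
  intro k _ b c x hx v
  have hC : ∀ s : CoefW N e m, eval₂Hom (Int.castRingHom k) b
      (pcoefW X 0 s : MvPolynomial (IdxW N e m) ℤ) = pcoefW b 0 s := by
    intro s
    rw [pcoef_map]
    congr 1
    funext j
    exact eval₂Hom_X' _ _ _
  have hlev : Finsupp.single (some (ix v)) (m * e - 1) ≤ v.1 := by
    rw [Finsupp.single_le_iff]
    exact hix v
  have e1 : ((m ^ (2 * m) * (m * e) : ℕ) : k) * c * xp x v.1 =
      (m : k) ^ (2 * m) * xp x (v.1 - Finsupp.single (some (ix v)) (m * e - 1)) *
        (((m * e : ℕ) : k) * c * x (some (ix v)) ^ (m * e - 1)) := by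
    conv_lhs => rw [← tsub_add_cancel_of_le hlev, xp_add, xp_single]
    push_cast
    ring
  rw [e1, crit_x hm b c x (ix v) (hx _), mul_neg, Finset.mul_sum]
  simp only [map_neg, map_sum, map_mul, map_natCast, hC, neg_mul, Finset.sum_neg_distrib]
  congr 1
  simp only [Finset.sum_mul]
  rw [Finset.sum_comm]
  refine Finset.sum_congr rfl fun s _ => ?_
  by_cases hs : 1 ≤ cx s (some (ix v))
  · have h2 := hρ v s hs k b c x hx
    rw [xp_add] at h2
    have h3 : ∑ u : Bas N e m W, pcoefW b 0 s * (cx s (some (ix v)) : k) *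
        eval₂Hom (Int.castRingHom k) b (ρ v s u) * xp x u.1 =
        pcoefW b 0 s * (cx s (some (ix v)) : k) *
          ∑ u : Bas N e m W, eval₂Hom (Int.castRingHom k) b (ρ v s u) * xp x u.1 := by
      rw [Finset.mul_sum]
      exact Finset.sum_congr rfl fun v _ => by ring
    rw [h3, ← h2]
    ring
  · have h2 : cx s (some (ix v)) = 0 := by omega
    rw [h2]
    simp

theorem t_E1W : S_E1W := by
  classical
  intro N e m he hm
  obtain ⟨W, hW⟩ : ∃ W, W = (m - 2) * e + (N + 1) * (m * e - 2) + 1 := ⟨_, rfl⟩
  obtain ⟨A, hA⟩ := exists_mat (N := N) he hm hW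
  refine ⟨m ^ (2 * m) * (m * e), A.charpoly, ?_, Matrix.charpoly_monic _, ?_⟩
  · have h1 : 0 < m ^ (2 * m) * (m * e) := by positivity
    exact h1
  intro k _ b c x s hs hx
  rw [ev, ← Matrix.charpoly_map, Matrix.eval_charpoly]
  apply Matrix.exists_mulVec_eq_zero_iff.1
  refine ⟨fun v : Bas N e m W => xp x v.1, ?_, ?_⟩
  · intro h2
    have h3 := congrFun h2 (⟨Finsupp.single (some s) W, by
      rw [wt_single, wt_some, mul_one], by
      rw [Finsupp.single_eq_of_ne (by simp)]
      exact Nat.zero_le _⟩ : Bas N e m W)
    simp only [xp_single] at h3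
    exact hs (pow_eq_zero_iff (by omega) |>.1 h3)
  · rw [Matrix.sub_mulVec]
    ext v
    rw [Pi.sub_apply]
    have h4 := hA k b c x hx v
    have h5 : ((A.map (eval₂Hom (Int.castRingHom k) b)).mulVec fun v : Bas N e m W => xp x v.1) v =
        ∑ u, eval₂Hom (Int.castRingHom k) b (A v u) * xp x u.1 := rfl
    rw [h5, ← h4]
    simp [Matrix.scalar_apply, Matrix.mulVec_diagonal]

end Pool.Agent.K3h79.NW
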